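import Pool.Agent.H92.SM.T_Full

/-!
# MP_72ffec_pr: the Gaussian soft-max projection inequality and the regular simplex (Q1, full answer)

For all `n ≥ 2`, all centered Gaussian vectors `X` with unit-variance coordinates (singular
covariance allowed) and all `β > 0`

  `E[(P_{H_X^⊥} f_β(X) + 1/β)²] ≤ E[(P_{H_S^⊥} f_β(S) + 1/β)²]`,

where `S` is the regular simplex vector, and the same for `max` in place of `f_β` (without `1/β`).
-/

set_option autoImplicit false

namespace Pool.Agent.Results.MP_72ffec_pr.SoftMaxSimplex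

open MeasureTheory ProbabilityTheory
open scoped ENNReal

/-- The soft-max `f_β(x) = (1/β) log ∑ₖ exp (β xₖ)`. -/
noncomputable def softMax {n : ℕ} (β : ℝ) (x : Fin n → ℝ) : ℝ :=
  1 / β * Real.log (∑ k, Real.exp (β * x k))

/-- `X = (X₁, …, Xₙ)` is a centered Gaussian vector (its covariance may be singular) with
`E[Xᵢ²] = 1` for all `i`. -/
structure IsUnitGaussian {Ω : Type*} [MeasurableSpace Ω] (P : Measure Ω) {n : ℕ}
    (X : Fin n → Ω → ℝ) : Prop where
  gaussian : HasGaussianLaw (fun ω i => X i ω) P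
  centered : ∀ i, ∫ ω, X i ω ∂P = 0
  unit_variance : ∀ i, ∫ ω, X i ω ^ 2 ∂P = 1

/-- `S = (S₁, …, Sₙ)` is the regular simplex vector: centered Gaussian with `E[Sᵢ²] = 1` and
`E[Sᵢ Sⱼ] = -1/(n-1)` for `i ≠ j`. -/
structure IsSimplexGaussian {Ω : Type*} [MeasurableSpace Ω] (P : Measure Ω) {n : ℕ}
    (S : Fin n → Ω → ℝ) : Prop extends IsUnitGaussian P S where
  covariance : ∀ i j, i ≠ j → ∫ ω, S i ω * S j ω ∂P = -1 / ((n : ℝ) - 1)

/-- `H_X = span (X₁, …, Xₙ)`, a subspace of `L²(P)`. -/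
noncomputable def spanL2 {Ω : Type*} [MeasurableSpace Ω] (P : Measure Ω) {n : ℕ}
    (X : Fin n → Ω → ℝ) : Submodule ℝ (Lp ℝ 2 P) :=
  Submodule.span ℝ {g : Lp ℝ 2 P | ∃ i, g =ᵐ[P] X i}

open Classical in
/-- The class of `F` in `L²(P)` for square integrable `F` (and `0` for other `F`). -/
noncomputable def toL2 {Ω : Type*} [MeasurableSpace Ω] (P : Measure Ω) (F : Ω → ℝ) :
    Lp ℝ 2 P :=
  if h : MemLp F 2 P then h.toLp F else 0

/-- The orthogonal projection `P_{K^⊥} f` of `f` onto the orthogonal complement of `K`. -/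
noncomputable def perpProj {H : Type*} [NormedAddCommGroup H] [InnerProductSpace ℝ H]
    [CompleteSpace H] (K : Submodule ℝ H) (f : H) : H :=
  Kᗮ.starProjection f

/-- `E[(P_{H_X^⊥} F + c)²]` for square integrable `F`. -/
noncomputable def perpSq {Ω : Type*} [MeasurableSpace Ω] (P : Measure Ω) {n : ℕ}
    (X : Fin n → Ω → ℝ) (F : Ω → ℝ) (c : ℝ) : ℝ :=
  ∫ ω, (perpProj (spanL2 P X) (toL2 P F) ω + c) ^ 2 ∂P

open Pool.Agent.H92.SM in
theorem psi_eq {Ω : Type*} [MeasurableSpace Ω] (P : Measure Ω) {n : ℕ} (X : Fin n → Ω → ℝ)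
    (f : Ω → ℝ) (c : ℝ) : Psi P X f c = perpSq P X f c := by
  unfold Psi perpSq perpProj toL2 Pool.Agent.H92.SM.toL2
  rfl

/-- Full answer to Q1 of MP_72ffec_pr (both inequalities; all functions are square integrable). -/
theorem result.{u, v} {n : ℕ} (hn : 2 ≤ n) {Ω : Type u} {Ω' : Type v} [MeasurableSpace Ω]
    [MeasurableSpace Ω'] (P : Measure Ω) (P' : Measure Ω') [IsProbabilityMeasure P]
    [IsProbabilityMeasure P'] (X : Fin n → Ω → ℝ) (S : Fin n → Ω' → ℝ)
    (hX : IsUnitGaussian P X) (hS : IsSimplexGaussian P' S) :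
    (∀ β : ℝ, 0 < β →
      MemLp (fun ω => softMax β (fun i => X i ω)) 2 P ∧
      MemLp (fun ω => softMax β (fun i => S i ω)) 2 P' ∧
      perpSq P X (fun ω => softMax β (fun i => X i ω)) (1 / β) ≤
        perpSq P' S (fun ω => softMax β (fun i => S i ω)) (1 / β)) ∧
    (MemLp (fun ω => ⨆ i, X i ω) 2 P ∧ MemLp (fun ω => ⨆ i, S i ω) 2 P' ∧
      perpSq P X (fun ω => ⨆ i, X i ω) 0 ≤ perpSq P' S (fun ω => ⨆ i, S i ω) 0) := by
  have hN : 0 < n := by omega
  have hX' : Pool.Agent.H92.SM.UnitGaussian P X := ⟨hX.1, hX.2, hX.3⟩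
  have hS' : Pool.Agent.H92.SM.UnitGaussian P' S :=
    ⟨hS.gaussian, hS.centered, hS.unit_variance⟩
  have hXm : AEMeasurable (fun ω i => X i ω) P := hX.gaussian.aemeasurable
  have hSm : AEMeasurable (fun ω i => S i ω) P' := hS.gaussian.aemeasurable
  have hXL : ∀ i, MemLp (X i) 2 P := fun i => (hX.gaussian.eval i).memLp_two
  have hSL : ∀ i, MemLp (S i) 2 P' := fun i => (hS.gaussian.eval i).memLp_two
  obtain ⟨h1, h2⟩ := Pool.Agent.H92.SM.full hn P P' X S hX' hS' hS.covariance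
  constructor
  · intro β hβ
    obtain ⟨s1, -, -, -, -, -, s7, -⟩ := Pool.Agent.H92.SM.SMX hN β hβ
    have hf : MemLp (fun ω => Pool.Agent.H92.SM.softmax β (fun i => X i ω)) 2 P :=
      Pool.Agent.H92.SM.MAINaux.memLp_of_growth hXm hXL _ s1.measurable _ s7
    have hg : MemLp (fun ω => Pool.Agent.H92.SM.softmax β (fun i => S i ω)) 2 P' :=
      Pool.Agent.H92.SM.MAINaux.memLp_of_growth hSm hSL _ s1.measurable _ s7
    have h3 := h1 β hβ
    rw [psi_eq, psi_eq] at h3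
    exact ⟨hf, hg, h3⟩
  · have hf : MemLp (fun ω => ⨆ i, X i ω) 2 P :=
      Pool.Agent.H92.SM.MAINaux.memLp_of_growth hXm hXL (fun y => ⨆ i, y i)
        Pool.Agent.H92.SM.MAINaux.sup_meas _
        (Pool.Agent.H92.SM.MAINaux.sup_growth Pool.Agent.H92.SM.SMX hN)
    have hg : MemLp (fun ω => ⨆ i, S i ω) 2 P' :=
      Pool.Agent.H92.SM.MAINaux.memLp_of_growth hSm hSL (fun y => ⨆ i, y i)
        Pool.Agent.H92.SM.MAINaux.sup_meas _
        (Pool.Agent.H92.SM.MAINaux.sup_growth Pool.Agent.H92.SM.SMX hN)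
    rw [psi_eq, psi_eq] at h2
    exact ⟨hf, hg, h2⟩

end Pool.Agent.Results.MP_72ffec_pr.SoftMaxSimplex
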